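import Pool.Agent.Helper11.M3.Goals4b
import Pool.Agent.Helper17.PP0.LRG
import Pool.Agent.Helper32.M3.UMNS

/-!
# Project M3 (MP_fc6b1e_nt, step 2): packet U_LRG

The bilinear sums for the small blocks. Adaptation of `Pool/Agent/Helper17/PP0/LRG.lean`.
-/

set_option autoImplicit false

namespace Pool.Agent.Helper90.M3

open Finset Pool.Agent.Helper17.PP Pool.Agent.Helper17.PP0 Pool.Agent.Helper11.M3
open Pool.Agent.Helper17.PP0.LRG

section Basic

variable {p : ℕ} {B B₀ k U Λ C : Type} [Field k] [AddCommGroup U] [Module k U]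
    [AddCommGroup Λ] [Module k Λ] [AddCommGroup C] (S : Sys p B B₀ k U Λ C)

open Classical in
/-- The split primes of `s` in the blocks `> j`, `≤ th E j`. -/
noncomputable def rtj (E j : ℕ) (s : Finset B) : Finset B :=
  s.filter fun q' ↦ S.spl q' ∧ j < S.bl q' ∧ S.bl q' ≤ th E j

open Classical in
theorem rt_insert {E j : ℕ} {s : Finset B} {q : B} (hq : q ∉ s) (hj : S.bl q = j) :
    S.rt E (insert q s) q = rtj S E j s := by
  unfold Sys.rt rtj
  rw [erase_insert hq, hj]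

open Classical in
/-- The conditions on `D`, for fixed `r`. -/
structure Du (E i j : ℕ) (P r D : Finset B) : Prop where
  sub : D ⊆ P
  dis : Disjoint D r
  blk : ∀ q' ∈ D ∪ r, S.spl q' → S.bl q' ≠ j
  spl : ∀ q' ∈ D, S.spl q' ∧ j < S.bl q' ∧ S.bl q' ≤ th E j
  log : Nat.log 2 (S.nm D) = i
  small : ∀ D' ⊆ D ∪ r, (∀ q' ∈ D', S.bl q' ≤ th E j) → S.nm D' < 2 ^ tb E j
  inj : Set.InjOn S.bs ((D ∪ r : Finset B) : Set B)

open Classical in
theorem cond_iff' {E i j : ℕ} {P r D : Finset B} {q : B} (hD : D ⊆ P) (hr : Disjoint D r)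
    (hq : q ∉ D ∪ r) :
    (S.Fam (insert q (D ∪ r)) ∧ (S.Wt E (insert q (D ∪ r)) q ∧ S.bl q = j) ∧
      (D ⊆ S.rt E (insert q (D ∪ r)) q ∧ Nat.log 2 (S.nm D) = i)) ↔
    (S.bl q = j ∧ S.spl q) ∧ Du S E i j P r D ∧ S.cls q + ∑ q' ∈ D ∪ r, S.cls q' = S.cl₀ := by
  constructor
  · rintro ⟨⟨hF1, hF2⟩, ⟨hW, hj⟩, hDr, hlog⟩
    rw [rt_insert S hq hj] at hDr
    refine ⟨⟨hj, hW.spl⟩, ⟨hD, hr, ?_, ?_, hlog, ?_, ?_⟩, ?_⟩
    · intro q' hq' hs hb
      have hne : q' ≠ q := fun h ↦ hq (h ▸ hq')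
      exact hW.uniq q' (mem_insert_of_mem hq') hne hs (hb.trans hj.symm)
    · intro q' hq'
      have := hDr hq'
      unfold rtj at this
      rw [mem_filter] at this
      exact this.2
    · intro D' hD' h
      have := hW.small D' (hD'.trans (subset_insert _ _)) (fun h ↦ hq (hD' h))
      rw [hj] at this
      exact this h
    · refine hF1.mono ?_
      exact_mod_cast subset_insert _ _
    · rw [← sum_insert hq]
      exact hF2
  · rintro ⟨⟨hj, hs⟩, hDc, hcl⟩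
    refine ⟨⟨?_, ?_⟩, ⟨⟨mem_insert_self _ _, hs, ?_, ?_⟩, hj⟩, ?_, hDc.log⟩
    · rw [coe_insert, Set.injOn_insert (by exact_mod_cast hq)]
      refine ⟨hDc.inj, ?_⟩
      rintro ⟨q', hq', he⟩
      have hs' : S.spl q' := (S.bsS q' q he).2 hs
      have hb' : S.bl q' = j := by
        rw [← hj]
        unfold Sys.bl
        rw [S.bsN q' q he]
      exact hDc.blk q' (by exact_mod_cast hq') hs' hb'
    · rw [sum_insert hq]
      exact hcl
    · intro q' hq' hne hs' hb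
      exact hDc.blk q' (mem_of_mem_insert_of_ne hq' hne) hs' (hb.trans hj)
    · intro D' hD' hqD' h
      rw [hj] at h ⊢
      refine hDc.small D' ?_ h
      intro a ha
      exact mem_of_mem_insert_of_ne (hD' ha) (fun h ↦ hqD' (h ▸ ha))
    · rw [rt_insert S hq hj]
      intro a ha
      unfold rtj
      rw [mem_filter]
      exact ⟨mem_union_left _ ha, hDc.spl a ha⟩

open Classical in
theorem y_iff' {E i j : ℕ} {P r D : Finset B} (h : Du S E i j P r D) (y : B → k) :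
    (∀ q' ∈ rtj S E j (D ∪ r), y q' ≠ 0 ↔ q' ∈ D) ↔
      (∀ q' ∈ rtj S E j r, y q' = 0) ∧ ∀ q' ∈ D, y q' ≠ 0 := by
  have hdis : ∀ q' ∈ r, q' ∉ D := fun q' hq' hD ↦
    (disjoint_left.1 h.dis) hD hq'
  constructor
  · intro hy
    constructor
    · intro q' hq'
      unfold rtj at hq'
      rw [mem_filter] at hq'
      have h1 : q' ∈ rtj S E j (D ∪ r) := by
        unfold rtj
        rw [mem_filter]
        exact ⟨mem_union_right _ hq'.1, hq'.2⟩
      by_contra hne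
      exact hdis q' hq'.1 ((hy q' h1).1 hne)
    · intro q' hq'
      have h1 : q' ∈ rtj S E j (D ∪ r) := by
        unfold rtj
        rw [mem_filter]
        exact ⟨mem_union_left _ hq', h.spl q' hq'⟩
      exact (hy q' h1).2 hq'
  · rintro ⟨h1, h2⟩ q' hq'
    unfold rtj at hq'
    rw [mem_filter, mem_union] at hq'
    rcases hq'.1 with hD | hr
    · exact ⟨fun _ ↦ hD, fun _ ↦ h2 q' hD⟩
    · have h3 : q' ∈ rtj S E j r := by
        unfold rtj
        rw [mem_filter]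
        exact ⟨hr, hq'.2⟩
      have h4 := h1 q' h3
      constructor
      · intro h5
        exact absurd h4 h5
      · intro h5
        exact absurd h5 (hdis q' hr)

open Classical in
theorem card_rsj' {E i j : ℕ} {P r D : Finset B} (h : Du S E i j P r D) :
    (rsj S j (D ∪ r)).card = (rsj S j r).card := by
  rw [card_rsj S h.dis]
  have h1 : rsj S j D = ∅ := by
    unfold rsj
    rw [filter_eq_empty_iff]
    rintro q' hq' ⟨_, h2⟩
    have := (h.spl q' hq').2.1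
    omega
  rw [h1, card_empty, zero_add]

open Classical in
theorem cc_eq_zero {E i j : ℕ} {P r D : Finset B} (h : Du S E i j P r D) (c : B → k) {q' : B}
    (hq' : q' ∈ D) : cc S j (D ∪ r) c q' = 0 := by
  unfold cc rsj
  rw [if_neg]
  intro h1
  rw [mem_filter] at h1
  have := (h.spl q' hq').2.1
  omega

open Classical in
/-- The phase which depends on `D`. -/
noncomputable def Ph [Algebra (ZMod p) k] (ψ : AddChar k ℂ) (j : ℕ) (x : U)
    (c y : B → k) (D r : Finset B) : ℂ :=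
  ∏ q' ∈ D, ψ (y q' * S.R (D ∪ r) x (cc S j (D ∪ r) c) q')

theorem norm_Ph [Algebra (ZMod p) k] [Finite k] (ψ : AddChar k ℂ)
    (j : ℕ) (x : U) (c y : B → k) (D r : Finset B) :
    ‖Ph S ψ j x c y D r‖ = 1 := by
  unfold Ph
  rw [norm_prod]
  exact prod_eq_one fun q' _ ↦ AddChar.norm_apply _ _

open Classical in
theorem phase' [Algebra (ZMod p) k] (ψ : AddChar k ℂ) {E i j : ℕ}
    {P r D : Finset B} (h : Du S E i j P r D) {q : B} (hq : q ∉ D ∪ r) (hj : S.bl q = j)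
    (x : U) (t : k) (c y : B → k) :
    ∏ q' ∈ D, ψ (y q' * S.R (insert q (D ∪ r)) x (S.trc (insert q (D ∪ r)) q t c) q') =
    S.chr ψ D y 0 t q * Ph S ψ j x c y D r := by
  unfold Sys.chr Ph
  rw [← prod_mul_distrib]
  refine prod_congr rfl fun q' hq' ↦ ?_
  rw [R_insert S hq hj t c x (mem_union_left _ hq'), ← AddChar.map_add_eq_mul,
    cc_eq_zero S h c hq', ← mul_add]
  rfl

end Basic

section Main

variable {p : ℕ} [Fact p.Prime] {B B₀ k U Λ C : Type} [Field k] [Fintype k]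
    [Algebra (ZMod p) k] [AddCommGroup U] [Module k U] [Fintype U]
    [AddCommGroup Λ] [Module k Λ] [AddCommGroup C] (S : Sys p B B₀ k U Λ C)

open Classical in
/-- The term of the bilinear form. -/
noncomputable def zu (ψ : AddChar k ℂ) (j : ℕ) (X : ℝ) (r : Finset B) (x : U)
    (t : k) (c y : B → k) (q : B) (D : Finset B) : ℂ :=
  Ph S ψ j x c y D r *
    S.chr ψ D y 0 t q * (Real.exp (-(S.N q * S.nm D / (X / S.nm r))) : ℂ)

open Classical in
theorem pau_eq (ψ : AddChar k ℂ) {E i j : ℕ}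
    {P r D : Finset B} (h : Du S E i j P r D) {q : B} (hq : q ∉ D ∪ r) (hj : S.bl q = j)
    (t : k) (X : ℝ) :
    pau S ψ E P (insert q (D ∪ r)) q t D *
        (Real.exp (-(S.nm (insert q (D ∪ r)) / X)) : ℂ) =
      ((Fintype.card k : ℂ) ^ (rsj S j r).card / ((lab k P).card : ℂ) ^ 2) *
      ∑ x : U, ∑ c ∈ lab k P,
        ∑ y ∈ lab k P with (∀ q' ∈ rtj S E j r, y q' = 0),
          if ∀ q' ∈ D, y q' ≠ 0 then zu S ψ j X r x t c y q D else 0 := by
  unfold pau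
  rw [exp_eq S h.dis hq X, rs_insert S hq hj, rt_insert S hq hj, card_rsj' S h]
  have key : ∀ (x : U) (c : B → k),
      ∑ y ∈ lab k P with (∀ q' ∈ rtj S E j (D ∪ r), y q' ≠ 0 ↔ q' ∈ D),
          ∏ q' ∈ D, ψ (y q' * S.R (insert q (D ∪ r)) x
            (S.trc (insert q (D ∪ r)) q t c) q') =
      ∑ y ∈ lab k P with (∀ q' ∈ rtj S E j r, y q' = 0),
        if ∀ q' ∈ D, y q' ≠ 0 then
          S.chr ψ D y 0 t q * Ph S ψ j x c y D r else 0 := by
    intro x c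
    rw [sum_filter, sum_filter]
    refine sum_congr rfl fun y _ ↦ ?_
    rw [phase' S ψ h hq hj x t c y]
    have hy := y_iff' S h y
    by_cases h1 : ∀ q' ∈ rtj S E j r, y q' = 0
    · by_cases h2 : ∀ q' ∈ D, y q' ≠ 0
      · rw [if_pos (hy.2 ⟨h1, h2⟩), if_pos h1, if_pos h2]
      · rw [if_neg (fun h3 ↦ h2 (hy.1 h3).2), if_pos h1, if_neg h2]
    · rw [if_neg (fun h3 ↦ h1 (hy.1 h3).1), if_neg h1]
  simp only [key]
  unfold zu
  rw [mul_assoc]
  congr 1
  simp only [sum_mul]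
  refine sum_congr rfl fun x _ ↦ sum_congr rfl fun c _ ↦
    sum_congr rfl fun y _ ↦ ?_
  by_cases h2 : ∀ q' ∈ D, y q' ≠ 0
  · rw [if_pos h2, if_pos h2]
    ring
  · rw [if_neg h2, if_neg h2, zero_mul]

omit [Fintype U] in
open Classical in
theorem bil' [Finite C] (ψ : AddChar k ℂ) {e : B → k} {N : B → Prop} {Y : AddSubgroup k}
    {g : ℝ → ℝ} {K : ℕ} [Fintype Λ]
    (hyp : Hyp₄ S ψ e N Y g K) (E : ℕ) (i : ℕ) {j : ℕ} (hj : 1 ≤ j) {X : ℝ} (hX : 0 < X)
    (P r : Finset B) (x : U) {t : k} (ht : t ≠ 0) (c y : B → k) :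
    ‖∑ q ∈ S.blk j with S.spl q, ∑ D ∈ S.mods i,
      if (q ∈ P ∧ Du S E i j P r D ∧ S.cls q + ∑ q' ∈ D ∪ r, S.cls q' = S.cl₀) ∧
          ∀ q' ∈ D, y q' ≠ 0 then zu S ψ j X r x t c y q D else 0‖ ≤
      Fintype.card k * (Nat.card C * (K * 2 ^ (i + j) * (i + 1) ^ K *
        (2 : ℝ) ^ (-(min i j : ℝ) / K) *
        Real.exp (-((2 : ℝ) ^ (i + j) / (2 * (X / S.nm r)))))) := by
  let _ : Fintype C := Fintype.ofFinite C
  let α : C → B → ℂ := fun γ q ↦ if q ∈ P ∧ S.cls q = γ then 1 else 0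
  let β : C → Finset B → ℂ := fun γ D ↦
    if (Du S E i j P r D ∧ γ + ∑ q' ∈ D ∪ r, S.cls q' = S.cl₀) ∧ ∀ q' ∈ D, y q' ≠ 0 then
      Ph S ψ j x c y D r else 0
  have h1 : ∀ (q : B) (D : Finset B),
      (if (q ∈ P ∧ Du S E i j P r D ∧ S.cls q + ∑ q' ∈ D ∪ r, S.cls q' = S.cl₀) ∧
          ∀ q' ∈ D, y q' ≠ 0 then zu S ψ j X r x t c y q D else 0) =
      ∑ γ : C, α γ q * β γ D * S.chr ψ D y 0 t q *
        (Real.exp (-(S.N q * S.nm D / (X / S.nm r))) : ℂ) := by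
    intro q D
    rw [sum_eq_single (S.cls q)]
    · simp only [α, β]
      by_cases h2 : q ∈ P
      · by_cases h3 : (Du S E i j P r D ∧ S.cls q + ∑ q' ∈ D ∪ r, S.cls q' = S.cl₀) ∧
          ∀ q' ∈ D, y q' ≠ 0
        · rw [if_pos ⟨⟨h2, h3.1⟩, h3.2⟩, if_pos ⟨h2, trivial⟩, if_pos h3]
          unfold zu
          ring
        · rw [if_neg (fun h4 ↦ h3 ⟨h4.1.2, h4.2⟩), if_neg h3]
          ring
      · rw [if_neg (fun h4 ↦ h2 h4.1.1), if_neg (fun h4 ↦ h2 h4.1)]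
        ring
    · intro γ _ hγ
      simp only [α]
      rw [if_neg (fun h4 ↦ hγ h4.2.symm)]
      ring
    · intro h
      exact absurd (mem_univ _) h
  simp only [h1]
  have h2 : ∑ q ∈ S.blk j with S.spl q, ∑ D ∈ S.mods i, ∑ γ : C,
      α γ q * β γ D * S.chr ψ D y 0 t q *
        (Real.exp (-(S.N q * S.nm D / (X / S.nm r))) : ℂ) =
      ∑ ε : k, ∑ γ : C, ∑ q ∈ S.blk j with (S.spl q ∧ e q = ε), ∑ D ∈ S.mods i,
        α γ q * β γ D * S.chr ψ D y 0 t q *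
        (Real.exp (-(S.N q * S.nm D / (X / S.nm r))) : ℂ) := by
    rw [← sum_fiberwise_of_maps_to (s := {q ∈ S.blk j | S.spl q}) (t := (univ : Finset k))
      (g := e) (fun _ _ ↦ mem_univ _)]
    refine sum_congr rfl fun ε _ ↦ ?_
    rw [filter_filter, sum_comm (s := (univ : Finset C))]
    exact sum_congr rfl fun q _ ↦ sum_comm
  rw [h2]
  rw [Nat.card_eq_fintype_card]
  have hr : (0 : ℝ) < S.nm r := by exact_mod_cast one_le_nm S r
  have hk : (1 : ℝ) ≤ Fintype.card k := by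
    have : 0 < Fintype.card k := Fintype.card_pos
    exact_mod_cast this
  refine (norm_sum_le_of_le _ fun ε _ ↦ norm_sum_le_of_le _ fun γ _ ↦
    hyp.bl₁ i j t ε y 0 (α γ) (β γ) (X / S.nm r) hj
    ht (div_pos hX hr) ?_ ?_ ?_).trans ?_
  · intro q
    simp only [α]
    split_ifs
    · simp
    · simp
  · intro D
    simp only [β]
    split_ifs
    · rw [norm_Ph]
      exact one_le_pow₀ hk
    · rw [norm_zero]
      positivity
  · intro D hD
    simp only [β] at hD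
    by_cases h3 : (Du S E i j P r D ∧ γ + ∑ q' ∈ D ∪ r, S.cls q' = S.cl₀) ∧
          ∀ q' ∈ D, y q' ≠ 0
    · refine ⟨h3.1.1.inj.mono ?_, ?_⟩
      · exact_mod_cast subset_union_left
      · intro q hq
        have h4 := h3.1.1.spl q hq
        refine ⟨h4.1, h4.2.1.ne', h3.2 q hq, ?_⟩
        rw [Pi.zero_apply, zero_mul]
        exact (mul_ne_zero ht (hyp.e_ne q)).symm
    · rw [if_neg h3] at hD
      exact absurd rfl hD
  · rw [sum_const, sum_const, card_univ, card_univ, nsmul_eq_mul, nsmul_eq_mul]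

theorem comm4 {A₁ A₂ A₃ A₄ : Type*} (s₁ : Finset A₁) (s₂ : Finset A₂) (s₃ : Finset A₃)
    (s₄ : Finset A₄) (F : A₁ → A₂ → A₃ → A₄ → ℂ) :
    ∑ a₁ ∈ s₁, ∑ a₂ ∈ s₂, ∑ a₃ ∈ s₃, ∑ a₄ ∈ s₄, F a₁ a₂ a₃ a₄ =
      ∑ a₄ ∈ s₄, ∑ a₁ ∈ s₁, ∑ a₂ ∈ s₂, ∑ a₃ ∈ s₃, F a₁ a₂ a₃ a₄ := by
  refine (sum_congr rfl fun a₁ _ ↦ sum_congr rfl fun a₂ _ ↦ sum_comm).trans ?_
  refine (sum_congr rfl fun a₁ _ ↦ sum_comm).trans ?_
  exact sum_comm

open Classical in
/-- The inner term of the sum. -/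
noncomputable def Hu (ψ : AddChar k ℂ) (E i j : ℕ) (t : k) (X : ℝ) (P b : Finset B) (q : B)
    (D : Finset B) : ℂ :=
  if S.Fam b ∧ (S.Wt E b q ∧ S.bl q = j) ∧ (D ⊆ S.rt E b q ∧ Nat.log 2 (S.nm D) = i) then
    pau S ψ E P b q t D * (Real.exp (-(S.nm b / X)) : ℂ) else 0

open Classical in
theorem total_eq' (hdec : C_DEC) (ψ : AddChar k ℂ) (E i j : ℕ) (t : k) (X : ℝ)
    (P : Finset B) :
    ∑ b ∈ P.powerset with S.Fam b, ∑ q ∈ b with (S.Wt E b q ∧ S.bl q = j),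
      ∑ D ∈ (S.rt E b q).powerset with Nat.log 2 (S.nm D) = i,
        pau S ψ E P b q t D * (Real.exp (-(S.nm b / X)) : ℂ) =
    ∑ r ∈ P.powerset, ∑ D ∈ (P \ r).powerset, ∑ q ∈ P \ (D ∪ r),
      Hu S ψ E i j t X P (insert q (D ∪ r)) q D := by
  obtain ⟨h1, h2, -⟩ := hdec B P
  have e1 : ∑ b ∈ P.powerset with S.Fam b, ∑ q ∈ b with (S.Wt E b q ∧ S.bl q = j),
      ∑ D ∈ (S.rt E b q).powerset with Nat.log 2 (S.nm D) = i,
        pau S ψ E P b q t D * (Real.exp (-(S.nm b / X)) : ℂ) =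
      ∑ b ∈ P.powerset, ∑ q ∈ b, ∑ D ∈ (b.erase q).powerset,
        Hu S ψ E i j t X P (insert q (b.erase q)) q D := by
    rw [sum_filter]
    refine sum_congr rfl fun b _ ↦ ?_
    by_cases hF : S.Fam b
    · rw [if_pos hF, sum_filter]
      refine sum_congr rfl fun q hq ↦ ?_
      rw [insert_erase hq]
      by_cases hW : S.Wt E b q ∧ S.bl q = j
      · rw [if_pos hW]
        have hs : {D ∈ (S.rt E b q).powerset | Nat.log 2 (S.nm D) = i} =
            {D ∈ (b.erase q).powerset | D ⊆ S.rt E b q ∧ Nat.log 2 (S.nm D) = i} := by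
          ext D
          simp only [mem_filter, mem_powerset]
          constructor
          · rintro ⟨h3, h4⟩
            exact ⟨h3.trans (filter_subset _ _), h3, h4⟩
          · rintro ⟨_, h3, h4⟩
            exact ⟨h3, h4⟩
        rw [hs, sum_filter]
        refine sum_congr rfl fun D _ ↦ ?_
        unfold Hu
        by_cases h3 : D ⊆ S.rt E b q ∧ Nat.log 2 (S.nm D) = i
        · rw [if_pos h3, if_pos ⟨hF, hW, h3⟩]
        · rw [if_neg h3, if_neg (fun h4 ↦ h3 h4.2.2)]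
      · rw [if_neg hW]
        refine (sum_eq_zero fun D _ ↦ ?_).symm
        unfold Hu
        rw [if_neg (fun h4 ↦ hW h4.2.1)]
    · rw [if_neg hF]
      refine (sum_eq_zero fun q hq ↦ sum_eq_zero fun D _ ↦ ?_).symm
      unfold Hu
      rw [insert_erase hq, if_neg (fun h4 ↦ hF h4.1)]
  rw [e1]
  have e2 := h1 ℂ (fun q s ↦ ∑ D ∈ s.powerset, Hu S ψ E i j t X P (insert q s) q D)
  rw [e2]
  have e3 : ∀ s ∈ P.powerset, ∑ q ∈ P \ s, ∑ D ∈ s.powerset,
      Hu S ψ E i j t X P (insert q s) q D =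
      ∑ D ∈ s.powerset, ∑ q ∈ P \ (D ∪ (s \ D)),
        Hu S ψ E i j t X P (insert q (D ∪ (s \ D))) q D := by
    intro s _
    rw [sum_comm]
    refine sum_congr rfl fun D hD ↦ ?_
    rw [union_sdiff_of_subset (mem_powerset.1 hD)]
  rw [sum_congr rfl e3]
  exact h2 ℂ (fun D r ↦ ∑ q ∈ P \ (D ∪ r), Hu S ψ E i j t X P (insert q (D ∪ r)) q D)

open Classical in
theorem Wr_eq' (ψ : AddChar k ℂ) (E i j : ℕ) (t : k) (X : ℝ) (P r : Finset B) :
    ∑ D ∈ (P \ r).powerset, ∑ q ∈ P \ (D ∪ r), Hu S ψ E i j t X P (insert q (D ∪ r)) q D =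
      ((Fintype.card k : ℂ) ^ (rsj S j r).card / ((lab k P).card : ℂ) ^ 2) *
      ∑ x : U, ∑ c ∈ lab k P,
        ∑ y ∈ lab k P with (∀ q' ∈ rtj S E j r, y q' = 0),
          ∑ q ∈ S.blk j with S.spl q, ∑ D ∈ S.mods i,
            if (q ∈ P ∧ Du S E i j P r D ∧ S.cls q + ∑ q' ∈ D ∪ r, S.cls q' = S.cl₀) ∧
              ∀ q' ∈ D, y q' ≠ 0 then zu S ψ j X r x t c y q D else 0 := by
  have e1 : ∀ q D, (if (q ∈ P ∧ Du S E i j P r D ∧
        S.cls q + ∑ q' ∈ D ∪ r, S.cls q' = S.cl₀) then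
      ((Fintype.card k : ℂ) ^ (rsj S j r).card / ((lab k P).card : ℂ) ^ 2) *
      ∑ x : U, ∑ c ∈ lab k P,
        ∑ y ∈ lab k P with (∀ q' ∈ rtj S E j r, y q' = 0),
            if ∀ q' ∈ D, y q' ≠ 0 then zu S ψ j X r x t c y q D else 0 else 0) =
      ((Fintype.card k : ℂ) ^ (rsj S j r).card / ((lab k P).card : ℂ) ^ 2) *
      ∑ x : U, ∑ c ∈ lab k P,
        ∑ y ∈ lab k P with (∀ q' ∈ rtj S E j r, y q' = 0),
            if (q ∈ P ∧ Du S E i j P r D ∧ S.cls q + ∑ q' ∈ D ∪ r, S.cls q' = S.cl₀) ∧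
              ∀ q' ∈ D, y q' ≠ 0 then zu S ψ j X r x t c y q D else 0 := by
    intro q D
    by_cases h : (q ∈ P ∧ Du S E i j P r D ∧ S.cls q + ∑ q' ∈ D ∪ r, S.cls q' = S.cl₀)
    · rw [if_pos h]
      simp only [h, true_and]
    · rw [if_neg h]
      simp only [h, false_and, if_false, sum_const_zero, mul_zero]
  rw [comm4]
  have e2 : ∀ q ∈ {q ∈ S.blk j | S.spl q}, ∑ x : U, ∑ c ∈ lab k P,
        ∑ y ∈ lab k P with (∀ q' ∈ rtj S E j r, y q' = 0), ∑ D ∈ S.mods i,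
            (if (q ∈ P ∧ Du S E i j P r D ∧ S.cls q + ∑ q' ∈ D ∪ r, S.cls q' = S.cl₀) ∧
              ∀ q' ∈ D, y q' ≠ 0 then zu S ψ j X r x t c y q D else 0) =
      ∑ D ∈ S.mods i, ∑ x : U, ∑ c ∈ lab k P,
        ∑ y ∈ lab k P with (∀ q' ∈ rtj S E j r, y q' = 0),
            if (q ∈ P ∧ Du S E i j P r D ∧ S.cls q + ∑ q' ∈ D ∪ r, S.cls q' = S.cl₀) ∧
              ∀ q' ∈ D, y q' ≠ 0 then zu S ψ j X r x t c y q D else 0 := by
    intro q _
    rw [comm4]
  rw [sum_congr rfl e2, sum_comm]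
  simp only [mul_sum (s := S.mods i), mul_sum (s := {q ∈ S.blk j | S.spl q}), ← e1]
  refine sum_congr_of_eq_on_inter ?_ ?_ ?_
  · intro D hD hDi
    refine sum_eq_zero fun q _ ↦ ?_
    unfold Hu
    rw [if_neg]
    rintro ⟨-, -, -, h⟩
    exact hDi ((mem_mods S).2 h)
  · intro D _ hD
    refine sum_eq_zero fun q _ ↦ ?_
    rw [if_neg]
    rintro ⟨-, h, -⟩
    refine hD ?_
    rw [mem_powerset]
    exact subset_sdiff.2 ⟨h.sub, h.dis⟩
  · intro D hD _
    rw [mem_powerset, subset_sdiff] at hD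
    refine sum_congr_of_eq_on_inter ?_ ?_ ?_
    · intro q hq hqn
      rw [mem_sdiff] at hq
      unfold Hu
      rw [if_neg]
      intro h
      have h2 := (cond_iff' S hD.1 hD.2 hq.2).1 h
      refine hqn ?_
      rw [mem_filter, mem_blk]
      exact h2.1
    · intro q hq hqn
      rw [mem_filter, mem_blk] at hq
      rw [if_neg]
      rintro ⟨h1, h2, -⟩
      refine hqn ?_
      rw [mem_sdiff]
      exact ⟨h1, fun h3 ↦ h2.blk q h3 hq.2 hq.1⟩
    · intro q hq hqb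
      rw [mem_sdiff] at hq
      rw [mem_filter, mem_blk] at hqb
      unfold Hu
      by_cases h : Du S E i j P r D ∧ S.cls q + ∑ q' ∈ D ∪ r, S.cls q' = S.cl₀
      · rw [if_pos ((cond_iff' S hD.1 hD.2 hq.2).2 ⟨hqb, h⟩), if_pos ⟨hq.1, h⟩]
        exact pau_eq S ψ h.1 hq.2 hqb.1 t X
      · rw [if_neg (fun h2 ↦ h ((cond_iff' S hD.1 hD.2 hq.2).1 h2).2),
          if_neg (fun h2 ↦ h h2.2)]

open Classical in
theorem Wr_le' [Finite C] [Fintype Λ] (ψ : AddChar k ℂ) {e : B → k} {N : B → Prop}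
    {Y : AddSubgroup k}
    {g : ℝ → ℝ} {K : ℕ} (hyp : Hyp₄ S ψ e N Y g K) (E i : ℕ) {j : ℕ} (hj : 1 ≤ j)
    {t : k} (ht : t ≠ 0) {X : ℝ} (hX : 0 < X) (P r : Finset B) :
    ‖∑ D ∈ (P \ r).powerset, ∑ q ∈ P \ (D ∪ r),
      Hu S ψ E i j t X P (insert q (D ∪ r)) q D‖ ≤
      (Fintype.card k : ℝ) ^ (rsj S j r).card * (Fintype.card U *
        (Fintype.card k * (Nat.card C * (K * 2 ^ (i + j) * (i + 1) ^ K *
        (2 : ℝ) ^ (-(min i j : ℝ) / K) *
        Real.exp (-((2 : ℝ) ^ (i + j) / (2 * (X / S.nm r)))))))) := by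
  rw [Wr_eq']
  set Bd : ℝ := (Fintype.card k * (Nat.card C * (K * 2 ^ (i + j) * (i + 1) ^ K *
    (2 : ℝ) ^ (-(min i j : ℝ) / K) *
        Real.exp (-((2 : ℝ) ^ (i + j) / (2 * (X / S.nm r))))))) with hBd
  have hBd0 : 0 ≤ Bd := by positivity
  have h1 : ‖∑ x : U, ∑ c ∈ lab k P,
        ∑ y ∈ lab k P with (∀ q' ∈ rtj S E j r, y q' = 0),
          ∑ q ∈ S.blk j with S.spl q, ∑ D ∈ S.mods i,
            if (q ∈ P ∧ Du S E i j P r D ∧ S.cls q + ∑ q' ∈ D ∪ r, S.cls q' = S.cl₀) ∧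
              ∀ q' ∈ D, y q' ≠ 0 then zu S ψ j X r x t c y q D else 0‖ ≤
      ∑ x : U, ∑ c ∈ lab k P,
        ∑ y ∈ lab k P with (∀ q' ∈ rtj S E j r, y q' = 0), Bd :=
    norm_sum_le_of_le _ fun x _ ↦ norm_sum_le_of_le _ fun c _ ↦
        norm_sum_le_of_le _ fun y _ ↦
          bil' S ψ hyp E i hj hX P r x ht c y
  simp only [sum_const, nsmul_eq_mul, card_univ] at h1
  set ny : ℕ := ((lab k P).filter fun y ↦ ∀ q' ∈ rtj S E j r, y q' = 0).card
  have hny : ny ≤ (lab k P).card := card_filter_le _ _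
  have hlp : 0 < (lab k P).card := by
    rw [card_pos]
    exact ⟨0, mem_lab.2 fun _ _ ↦ rfl⟩
  rw [norm_mul]
  have h5 : ‖((Fintype.card k : ℂ) ^ (rsj S j r).card / ((lab k P).card : ℂ) ^ 2)‖ =
      (Fintype.card k : ℝ) ^ (rsj S j r).card / ((lab k P).card : ℝ) ^ 2 := by
    rw [norm_div, norm_pow, norm_pow, Complex.norm_natCast, Complex.norm_natCast]
  rw [h5]
  set m : ℕ := (lab k P).card
  have hny' : (ny : ℝ) ≤ m := by exact_mod_cast hny
  have hm : (0 : ℝ) < m := by exact_mod_cast hlp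
  calc (Fintype.card k : ℝ) ^ (rsj S j r).card / (m : ℝ) ^ 2 * _
      ≤ (Fintype.card k : ℝ) ^ (rsj S j r).card / (m : ℝ) ^ 2 *
        (Fintype.card U * (m * (ny * Bd))) :=
        mul_le_mul_of_nonneg_left h1 (by positivity)
    _ = (Fintype.card k : ℝ) ^ (rsj S j r).card * (Fintype.card U * ((ny / m) * Bd)) := by
        field_simp
    _ ≤ (Fintype.card k : ℝ) ^ (rsj S j r).card * (Fintype.card U * (1 * Bd)) := by
        have h6 : (ny : ℝ) / m ≤ 1 := (div_le_one hm).2 hny'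
        gcongr
    _ = _ := by rw [one_mul]

end Main

open Classical in
/-- **U_LRG** (the bilinear sums for the small blocks). -/
theorem u_lrg_of (hdec : C_DEC) : Pool.Agent.Helper11.M3.U_LRG := by
  intro p _ B B₀ k U Λ C _ _ _ _ _ _ _ _ _ _ _ S ψ e N Y₀ g K hyp
  obtain ⟨Qn, hQn⟩ : ∃ Qn : ℕ, Qn = Fintype.card k := ⟨_, rfl⟩
  obtain ⟨Q, hQe⟩ : ∃ Q : ℝ, Q = (Qn : ℝ) := ⟨_, rfl⟩
  obtain ⟨K₁, hK₁⟩ : ∃ K₁ : ℕ, 2 * (K : ℝ) ^ 3 * Fintype.card U * Q * Nat.card C *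
      Real.exp (Q * K) ≤ K₁ := exists_nat_ge _
  obtain ⟨K', hK'⟩ : ∃ K' : ℕ, K' = K₁ + Qn * K := ⟨_, rfl⟩
  refine ⟨K', ?_⟩
  intro E i j t X P _ hj _ ht hX
  have hX0 : 0 < X := lt_of_lt_of_le one_pos hX
  have hK : (1 : ℝ) ≤ K := by exact_mod_cast hyp.one_le
  have hK0 : (0 : ℝ) < K := by linarith
  have hQ : 1 ≤ Q := by
    rw [hQe, hQn]
    have h : 0 < Fintype.card k := Fintype.card_pos
    exact_mod_cast h
  have hQ0 : 0 < Q := by linarith
  have hN0 : ∀ q, (0 : ℝ) < S.N q := by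
    intro q
    have h := S.two_le q
    exact_mod_cast (by omega : 0 < S.N q)
  rw [total_eq' S hdec]
  refine (norm_sum_le_of_le _ fun r _ ↦
    Wr_le' S ψ hyp E i hj ht hX0 P r).trans ?_
  rw [← hQn, ← hQe]
  set Y : ℝ := 2 * X / 2 ^ (i + j) with hY
  have hY0 : 0 < Y := by positivity
  have hYX : Y ≤ X := by
    rw [hY, div_le_iff₀ (by positivity)]
    have : (2 : ℝ) ^ 1 ≤ 2 ^ (i + j) := pow_le_pow_right₀ (by norm_num) (by omega)
    nlinarith
  -- the factor of the small blocks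
  have hj0 : (0 : ℝ) < j := by exact_mod_cast hj
  obtain ⟨f, hf⟩ : ∃ f : B → ℝ, f = fun q' => if S.spl q' ∧ S.bl q' < j then Q else 1 :=
    ⟨_, rfl⟩
  have hf01 : ∀ q, 1 ≤ f q ∧ f q ≤ Q := by
    intro q
    rw [hf]
    dsimp only
    split_ifs
    · exact ⟨hQ, le_refl _⟩
    · exact ⟨le_refl _, hQ⟩
  have hlog0 : 0 ≤ Real.log j := Real.log_nonneg (by exact_mod_cast hj)
  have hσ1 : Real.exp ((Q - 1) * (K * (1 + Real.log j))) ≤
      Real.exp (Q * K) * ((j : ℝ) + 2) ^ (Qn * K) := by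
    have h4 : Real.exp (Q * K) * ((j : ℝ) + 2) ^ (Qn * K) =
        Real.exp (Q * K + (Q * K) * Real.log ((j : ℝ) + 2)) := by
      rw [Real.exp_add]
      congr 1
      rw [mul_comm (Q * (K : ℝ)), ← Real.rpow_def_of_pos (by positivity), hQe, ← Nat.cast_mul,
        Real.rpow_natCast]
    rw [h4]
    refine Real.exp_le_exp.2 ?_
    have h5 : Real.log j ≤ Real.log ((j : ℝ) + 2) := Real.log_le_log hj0 (by linarith)
    have h6 : (Q - 1) * (K * (1 + Real.log j)) ≤ Q * (K * (1 + Real.log j)) := by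
      refine mul_le_mul_of_nonneg_right (by linarith) ?_
      positivity
    have h7 : Q * (K * (1 + Real.log j)) ≤ Q * (K * (1 + Real.log ((j : ℝ) + 2))) := by
      refine mul_le_mul_of_nonneg_left ?_ hQ0.le
      exact mul_le_mul_of_nonneg_left (by linarith) hK0.le
    calc (Q - 1) * (K * (1 + Real.log j)) ≤ Q * (K * (1 + Real.log ((j : ℝ) + 2))) :=
          h6.trans h7
      _ = _ := by ring
  have hexpa : ∑ q' ∈ S.upto Y, (f q' - 1) / S.N q' ≤ (Q - 1) * (K * (1 + Real.log j)) := by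
    have h4 : ∑ q' ∈ S.upto Y, (f q' - 1) / S.N q' ≤
        ∑ q' ∈ S.below (j + 1), (Q - 1) * (1 / S.N q') := by
      rw [← Finset.sum_filter_add_sum_filter_not (S.upto Y) (fun q' => S.bl q' < j)]
      have h5 : ∑ q' ∈ (S.upto Y).filter (fun q' => ¬ S.bl q' < j),
          (f q' - 1) / S.N q' = 0 := by
        refine Finset.sum_eq_zero fun q' hq' => ?_
        have h6 := (Finset.mem_filter.1 hq').2
        rw [hf]
        dsimp only
        rw [if_neg (fun h => h6 h.2), sub_self, zero_div]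
      rw [h5, add_zero]
      have h7 : ∑ q' ∈ (S.upto Y).filter (fun q' => S.bl q' < j),
          (f q' - 1) / S.N q' ≤ ∑ q' ∈ (S.upto Y).filter (fun q' => S.bl q' < j),
          (Q - 1) * (1 / S.N q') := by
        refine Finset.sum_le_sum fun q' _ => ?_
        rw [mul_one_div]
        refine div_le_div_of_nonneg_right ?_ (hN0 q').le
        linarith [(hf01 q').2]
      refine h7.trans (Finset.sum_le_sum_of_subset_of_nonneg ?_ fun q' _ _ => ?_)
      · intro q' hq'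
        rw [Pool.Agent.Helper17.PP0.MNS.mem_below']
        have := (Finset.mem_filter.1 hq').2
        omega
      · refine mul_nonneg (by linarith) (div_nonneg zero_le_one (hN0 q').le)
    refine h4.trans ?_
    rw [← Finset.mul_sum]
    refine mul_le_mul_of_nonneg_left ?_ (by linarith)
    exact Pool.Agent.Helper32.M3.sum_below_le S K hK0.le hyp.che j hj
  have hσ : Real.exp (∑ q' ∈ S.upto Y, (f q' - 1) / S.N q') ≤
      Real.exp (Q * K) * ((j : ℝ) + 2) ^ (Qn * K) := (Real.exp_le_exp.2 hexpa).trans hσ1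
  obtain ⟨σ, hσe⟩ : ∃ σ : ℝ, σ = Real.exp (Q * K) * ((j : ℝ) + 2) ^ (Qn * K) := ⟨_, rfl⟩
  rw [← hσe] at hσ
  have hσ0 : 0 ≤ σ := by rw [hσe]; positivity
  have h1 := hyp.ht f (fun q ↦ ⟨zero_le_one.trans (hf01 q).1, (hf01 q).2.trans (by
    rw [hQe, hQn]
    linarith)⟩) Y hY0 P
  have hprod : ∀ r : Finset B, ∏ q ∈ r, f q = Q ^ (rsj S j r).card := by
    intro r
    rw [← Finset.prod_const, hf]
    unfold rsj
    rw [Finset.prod_filter]
  simp only [hprod] at h1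
  have hgY : 0 ≤ g Y := zero_le_one.trans (hyp.g_one Y)
  have hgX : 0 ≤ g X := zero_le_one.trans (hyp.g_one X)
  have h2 : ∑ b ∈ P.powerset, Q ^ (rsj S j b).card * Real.exp (-(S.nm b / Y)) ≤
      K * (Y * (K * g X)) * σ := by
    refine h1.trans ?_
    refine mul_le_mul ?_ hσ (Real.exp_pos _).le (by positivity)
    refine mul_le_mul_of_nonneg_left ?_ (by positivity)
    have h3 : Y * min 1 Y * g Y ≤ Y * 1 * g Y := by
      gcongr
      exact min_le_left _ _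
    refine h3.trans ?_
    rw [mul_one]
    exact mul_le_mul_of_nonneg_left (hyp.g_mono Y X hYX) hY0.le
  have h3 : ∀ r, Real.exp (-((2 : ℝ) ^ (i + j) / (2 * (X / S.nm r)))) =
      Real.exp (-(S.nm r / Y)) := by
    intro r
    have hr : (0 : ℝ) < S.nm r := by exact_mod_cast one_le_nm S r
    congr 2
    rw [hY]
    field_simp
  simp only [h3]
  obtain ⟨w, hw⟩ : ∃ w : ℝ, w = (2 : ℝ) ^ (-(min i j : ℝ) / K) := ⟨_, rfl⟩
  rw [← hw]
  have hw0 : 0 ≤ w := by rw [hw]; positivity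
  have h4 : ∑ r ∈ P.powerset, Q ^ (rsj S j r).card * (Fintype.card U *
      (Q * (Nat.card C * (K * 2 ^ (i + j) * (i + 1) ^ K * w * Real.exp (-(S.nm r / Y)))))) =
      Fintype.card U * Q * Nat.card C * (K * 2 ^ (i + j) * (i + 1) ^ K * w) *
      ∑ b ∈ P.powerset, Q ^ (rsj S j b).card * Real.exp (-(S.nm b / Y)) := by
    rw [Finset.mul_sum]
    refine sum_congr rfl fun r _ ↦ ?_
    ring
  rw [h4]
  calc Fintype.card U * Q * Nat.card C * (K * 2 ^ (i + j) * (i + 1) ^ K * w) *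
      ∑ b ∈ P.powerset, Q ^ (rsj S j b).card * Real.exp (-(S.nm b / Y))
      ≤ Fintype.card U * Q * Nat.card C * (K * 2 ^ (i + j) * (i + 1) ^ K * w) *
        (K * (Y * (K * g X)) * σ) := by
        refine mul_le_mul_of_nonneg_left h2 (by positivity)
    _ = (2 * (K : ℝ) ^ 3 * Fintype.card U * Q * Nat.card C * Real.exp (Q * K)) *
        (((j : ℝ) + 2) ^ (Qn * K) * ((i + 1) ^ K * w * (X * g X))) := by
        rw [hY, hσe]
        field_simp
    _ ≤ K₁ * (((j : ℝ) + 2) ^ (Qn * K) * ((i + 1) ^ K * w * (X * g X))) := by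
        refine mul_le_mul_of_nonneg_right hK₁ ?_
        positivity
    _ ≤ K' * (((j : ℝ) + 2) ^ K' * ((i + 1) ^ K * w * (X * g X))) := by
        have hKK : (K₁ : ℝ) ≤ K' := by rw [hK']; exact_mod_cast Nat.le_add_right _ _
        have hpw : ((j : ℝ) + 2) ^ (Qn * K) ≤ ((j : ℝ) + 2) ^ K' :=
          pow_le_pow_right₀ (by linarith) (by rw [hK']; exact Nat.le_add_left _ _)
        refine mul_le_mul hKK ?_ (by positivity) (Nat.cast_nonneg _)
        exact mul_le_mul_of_nonneg_right hpw (by positivity)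
    _ = _ := by ring

theorem u_lrg : Pool.Agent.Helper11.M3.U_LRG := u_lrg_of Pool.Agent.Helper22.PP.c_dec

end Pool.Agent.Helper90.M3
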