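import Pool.Agent.Helper11.M3.GoalsA
import Pool.Agent.Helper42.WY.AZT
import Pool.Agent.Helper76.PB.Asm

/-!
# Project M3 (MP_fc6b1e_nt, step 2): packet A_SMO

The field `sm` for `subS (sysB ..) W`.
-/

set_option autoImplicit false

namespace Pool.Agent.Helper90.M3

open NumberField Polynomial Module IsDedekindDomain
open Pool.Agent.Helper51.RP Pool.Agent.Helper42.RD Pool.Agent.Helper42.PP Pool.Agent.Helper42.PP1
open Pool.Agent.Helper42.PB Pool.Agent.Helper11.PP Pool.Agent.Helper76.PP Pool.Agent.Helper76.PB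
open Pool.Agent.Helper17.PP (Sys)
open Pool.Agent.Helper11.M3

section abs

variable {p : ℕ} {B B₀ k U Λ C : Type} [Field k] [AddCommGroup U] [Module k U]
    [AddCommGroup Λ] [Module k Λ] [AddCommGroup C] (S : Sys p B B₀ k U Λ C)

/-- `SmF` for a subsystem, if `lam₀` and the `res q`, `q` split, vanish on a supplement. -/
theorem smF_sub {ψ : AddChar k ℂ} {K' : ℕ} (W Z : Submodule k U) (hWZ : W ⊔ Z = ⊤)
    (hZ : ∀ x ∈ Z, S.lam₀ x = 0 ∧ ∀ q, S.spl q → S.res q x = 0) (h : SmF S ψ K') :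
    SmF (subS S W) ψ K' := by
  intro D y χ n hn hD hinj hne hx
  refine h D y χ n hn hD hinj hne ?_
  intro x
  have hxm : x ∈ W ⊔ Z := by rw [hWZ]; exact Submodule.mem_top
  obtain ⟨w, hw, z, hz, rfl⟩ := Submodule.mem_sup.1 hxm
  have h1 : S.fU ψ χ D y w = 1 := hx ⟨w, hw⟩
  obtain ⟨hz1, hz2⟩ := hZ z hz
  rw [← h1]
  unfold Sys.fU
  rw [map_add, hz1, add_zero]
  congr 1
  refine Finset.prod_congr rfl fun q hq => ?_
  rw [map_add, hz2 q (hD q hq).1, add_zero]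

end abs

/-- **A_SMO**, from `V_SMN` and `A_ZTO`. -/
theorem a_smo_of (h1 : V_SMN) (h2 : A_ZTO) : Pool.Agent.Helper11.M3.A_SMO := by
  intro p hp K M K₁ M₁ J M₂ _ _ _ _ _ _ _ _ _ _ _ _ _ _ _ _ _ _ _ _ _ _ _ _ ε δ P hirr a₀ hB
    B D n E hN hZK aτ tr ψ₁ htr hψ
  obtain ⟨K₀, hK₀, hS⟩ := h1 p K M K₁ M₁ J M₂ ε δ P a₀ hB B D n E hN aτ tr ψ₁ htr hψ
  refine ⟨K₀, hK₀, fun K' hK' W hW => ?_⟩
  exact smF_sub (sysB B E (Spl M₂ B.S) D.s0 aτ) W (Zt B M₂) hW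
    (fun x hx => h2 p K M K₁ M₁ J M₂ ε δ P a₀ hB B D n E aτ hZK x hx) (hS K' hK')

/-- **A_SMO**. -/
theorem a_smo : Pool.Agent.Helper11.M3.A_SMO := a_smo_of a_smn Pool.Agent.Helper42.WY.a_zto

end Pool.Agent.Helper90.M3
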